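import Mathlib

/-!
# The signed `k`-subdomination bound `2 k - n` fails for a connected cubic graph of order eight

`n = 8`, `k = 5`: every assignment of signs with at most five plus signs covers at most four
vertices, so the signed 5-subdomination number is `4 = 2 (k + 1) - n`, although `k > n / 2`.
-/

set_option autoImplicit false

namespace Pool.Agent.Results.MP_1fc697_co.CubicOrderEight

open Finset

section defs

variable {V : Type*} [Fintype V]

open Classical in
/-- `f[v]`: the sum of `f` over the closed neighbourhood of `v`. -/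
noncomputable def closedSum (G : SimpleGraph V) (f : V → ℤ) (v : V) : ℤ :=
  ∑ u ∈ univ.filter (fun u => u = v ∨ G.Adj v u), f u

/-- `C_f`: the set of covered vertices. -/
noncomputable def coveredSet (G : SimpleGraph V) (f : V → ℤ) : Finset V :=
  univ.filter (fun v => 1 ≤ closedSum G f v)

/-- `f` has values `±1` and covers at least `k` vertices. -/
def IsSignedSubdominating (G : SimpleGraph V) (k : ℕ) (f : V → ℤ) : Prop :=
  (∀ v, f v = 1 ∨ f v = -1) ∧ k ≤ (coveredSet G f).card

/-- The signed `k`-subdomination number (for `k ≤ n` the minimum exists). -/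
noncomputable def signedNum (G : SimpleGraph V) (k : ℕ) : ℤ :=
  sInf {w : ℤ | ∃ f, IsSignedSubdominating G k f ∧ ∑ v, f v = w}

end defs

/-- `p_𝒢(n)` for the class `𝒢` of connected graphs. -/
noncomputable def pConnected (n : ℕ) : ℕ :=
  sInf {p : ℕ | ∀ G : SimpleGraph (Fin n), G.Connected → ∀ k : ℕ, 1 ≤ k → p ≤ k → k ≤ n →
    signedNum G k ≤ 2 * k - n}

/-- the adjacency of the cubic graph -/
def adjB (u v : Fin 8) : Bool :=
  (u, v) ∈ ([(0, 5), (0, 6), (0, 7), (1, 4), (1, 6), (1, 7), (2, 4), (2, 5), (2, 7), (3, 4), (3, 5),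
    (3, 6)] : List (Fin 8 × Fin 8)) ∨
  (v, u) ∈ ([(0, 5), (0, 6), (0, 7), (1, 4), (1, 6), (1, 7), (2, 4), (2, 5), (2, 7), (3, 4), (3, 5),
    (3, 6)] : List (Fin 8 × Fin 8))

/-- the cubic graph -/
def H : SimpleGraph (Fin 8) where
  Adj u v := adjB u v = true
  symm := ⟨by decide⟩
  loopless := ⟨by decide⟩

instance : DecidableRel H.Adj := fun u v => inferInstanceAs (Decidable (adjB u v = true))

lemma H_adj (u v : Fin 8) : H.Adj u v ↔ adjB u v = true := Iff.rfl

/-- number of plus signs in the closed neighbourhood -/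
def plusN (P : Fin 8 → Bool) (v : Fin 8) : ℕ :=
  (univ.filter (fun u => (u = v ∨ adjB v u = true) ∧ P u = true)).card

/-- number of vertices with at least three plus signs in the closed neighbourhood -/
def cov (P : Fin 8 → Bool) : ℕ := (univ.filter (fun v => 3 ≤ plusN P v)).card

/-- number of plus signs -/
def wt (P : Fin 8 → Bool) : ℕ := (univ.filter (fun u => P u = true)).card

set_option maxRecDepth 100000 in
lemma check : ∀ b0 b1 b2 b3 b4 b5 b6 b7 : Bool,
    wt ![b0, b1, b2, b3, b4, b5, b6, b7] ≤ 5 → cov ![b0, b1, b2, b3, b4, b5, b6, b7] ≤ 4 := by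
  decide +kernel

set_option maxRecDepth 100000 in
lemma check6 : wt ![false, true, true, true, false, true, true, true] = 6 ∧
    5 ≤ cov ![false, true, true, true, false, true, true, true] := by
  decide +kernel

set_option maxRecDepth 100000 in
lemma nbrs : ∀ v : Fin 8, (univ.filter (fun u => u = v ∨ adjB v u = true)).card = 4 := by
  decide +kernel

lemma check_all (P : Fin 8 → Bool) (h : wt P ≤ 5) : cov P ≤ 4 := by
  have e : P = ![P 0, P 1, P 2, P 3, P 4, P 5, P 6, P 7] := by
    funext v
    fin_cases v <;> rfl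
  rw [e] at h ⊢
  exact check _ _ _ _ _ _ _ _ h

/-- the plus set -/
noncomputable def pl (f : Fin 8 → ℤ) : Fin 8 → Bool := fun v => decide (f v = 1)

lemma sum_of (f : Fin 8 → ℤ) (hf : ∀ v, f v = 1 ∨ f v = -1) (S : Finset (Fin 8)) :
    ∑ u ∈ S, f u = 2 * ((S.filter (fun u => f u = 1)).card : ℤ) - S.card := by
  have h1 : ∀ u, f u = 2 * (if f u = 1 then (1 : ℤ) else 0) - 1 := by
    intro u
    rcases hf u with h | h
    · rw [if_pos h, h]; norm_num
    · rw [if_neg (by rw [h]; norm_num), h]; norm_num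
  rw [Finset.sum_congr rfl fun u _ => h1 u, Finset.sum_sub_distrib, ← Finset.mul_sum,
    Finset.sum_ite, Finset.sum_const_zero, add_zero, Finset.sum_const, Finset.sum_const]
  simp

lemma closed_eq (f : Fin 8 → ℤ) (hf : ∀ v, f v = 1 ∨ f v = -1) (v : Fin 8) :
    closedSum H f v = 2 * (plusN (pl f) v : ℤ) - 4 := by
  have key : ∀ S : Finset (Fin 8), (∀ u, u ∈ S ↔ (u = v ∨ adjB v u = true)) →
      ∑ u ∈ S, f u = 2 * (plusN (pl f) v : ℤ) - 4 := by
    intro S hS
    rw [sum_of f hf]
    have h1 : S = univ.filter (fun u => u = v ∨ adjB v u = true) := by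
      ext u
      rw [hS]
      simp only [mem_filter, mem_univ, true_and]
    have h2 : S.card = 4 := by rw [h1]; exact nbrs v
    have h3 : (S.filter (fun u => f u = 1)).card = plusN (pl f) v := by
      unfold plusN pl
      congr 1
      ext u
      simp only [mem_filter, mem_univ, true_and, hS, decide_eq_true_eq]
    rw [h2, h3]
    norm_num
  apply key
  intro u
  simp only [mem_filter, mem_univ, true_and, H_adj]

lemma covered_eq (f : Fin 8 → ℤ) (hf : ∀ v, f v = 1 ∨ f v = -1) :
    (coveredSet H f).card = cov (pl f) := by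
  unfold coveredSet cov
  congr 1
  ext v
  simp only [mem_filter, mem_univ, true_and]
  rw [closed_eq f hf]
  omega

lemma weight_eq (f : Fin 8 → ℤ) (hf : ∀ v, f v = 1 ∨ f v = -1) :
    ∑ v, f v = 2 * (wt (pl f) : ℤ) - 8 := by
  rw [sum_of f hf]
  unfold wt pl
  have h1 : (univ.filter (fun u => f u = 1)).card = (univ.filter (fun u => decide (f u = 1) = true)).card := by
    congr 1
    ext u
    simp only [mem_filter, mem_univ, true_and, decide_eq_true_eq]
  rw [h1]
  simp

lemma signed_ge (f : Fin 8 → ℤ) (hf : IsSignedSubdominating H 5 f) : 4 ≤ ∑ v, f v := by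
  obtain ⟨h1, h2⟩ := hf
  rw [covered_eq f h1] at h2
  rw [weight_eq f h1]
  by_contra hlt
  have h3 := check_all (pl f) (by omega)
  omega

/-- a function with six plus signs -/
def f6 : Fin 8 → ℤ := ![-1, 1, 1, 1, -1, 1, 1, 1]

lemma f6_pm : ∀ v, f6 v = 1 ∨ f6 v = -1 := by decide

lemma pl_f6 : pl f6 = ![false, true, true, true, false, true, true, true] := by
  funext v
  unfold pl f6
  fin_cases v <;> simp

lemma f6_ok : IsSignedSubdominating H 5 f6 := by
  refine ⟨f6_pm, ?_⟩
  rw [covered_eq f6 f6_pm, pl_f6]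
  exact check6.2

lemma f6_sum : ∑ v, f6 v = 4 := by
  rw [weight_eq f6 f6_pm, pl_f6, check6.1]
  norm_num

theorem signed_eq : signedNum H 5 = 4 := by
  have hmem : (4 : ℤ) ∈ {w : ℤ | ∃ f, IsSignedSubdominating H 5 f ∧ ∑ v, f v = w} :=
    ⟨f6, f6_ok, f6_sum⟩
  have hlb : ∀ w ∈ {w : ℤ | ∃ f, IsSignedSubdominating H 5 f ∧ ∑ v, f v = w}, (4 : ℤ) ≤ w := by
    rintro w ⟨f, hf, rfl⟩
    exact signed_ge f hf
  apply le_antisymm
  · exact csInf_le ⟨4, hlb⟩ hmem
  · exact le_csInf ⟨4, hmem⟩ hlb

lemma conn : H.Connected := by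
  have h0 : ∀ v : Fin 8, H.Reachable 0 v := by
    have a05 : H.Adj 0 5 := by decide
    have a06 : H.Adj 0 6 := by decide
    have a07 : H.Adj 0 7 := by decide
    have a61 : H.Adj 6 1 := by decide
    have a52 : H.Adj 5 2 := by decide
    have a53 : H.Adj 5 3 := by decide
    have a14 : H.Adj 1 4 := by decide
    intro v
    fin_cases v
    · exact SimpleGraph.Reachable.refl _
    · exact a06.reachable.trans a61.reachable
    · exact a05.reachable.trans a52.reachable
    · exact a05.reachable.trans a53.reachable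
    · exact (a06.reachable.trans a61.reachable).trans a14.reachable
    · exact a05.reachable
    · exact a06.reachable
    · exact a07.reachable
  exact ⟨fun u v => (h0 u).symm.trans (h0 v)⟩

set_option maxRecDepth 100000 in
lemma reg : ∀ v : Fin 8, H.degree v = 3 := by
  intro v
  have h1 : H.neighborFinset v = univ.filter (fun u => adjB v u = true) := by
    ext u
    simp only [SimpleGraph.mem_neighborFinset, mem_filter, mem_univ, true_and, H_adj]
  rw [← SimpleGraph.card_neighborFinset_eq_degree, h1]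
  revert v
  decide +kernel

lemma reg' (v : Fin 8) (S : Finset (Fin 8)) (hS : ∀ u, u ∈ S ↔ H.Adj v u) : S.card = 3 := by
  have h1 : S = H.neighborFinset v := by
    ext u
    rw [hS, SimpleGraph.mem_neighborFinset]
  rw [h1, SimpleGraph.card_neighborFinset_eq_degree]
  exact reg v

open Classical in
/-- There is a connected cubic graph `G` of order `n = 8` with `γ_{5s}^{-11}(G) = 4 = 2 (5 + 1) - 8`,
although `5 > n / 2`; hence the bound `2 k - n` fails for `n = 8`, `k = 5`, and
`p_𝒢(8) ≥ 6 > ⌊8 / 2⌋ + 1`. -/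
theorem result : (∃ G : SimpleGraph (Fin 8), G.Connected ∧
      (∀ v, (univ.filter (fun u => G.Adj v u)).card = 3) ∧
      signedNum G 5 = 2 * (5 + 1) - 8 ∧ ¬ signedNum G 5 ≤ 2 * 5 - 8) ∧
    6 ≤ pConnected 8 ∧ ¬ ∀ n : ℕ, 2 ≤ n → pConnected n = n / 2 + 1 := by
  have hp : 6 ≤ pConnected 8 := by
    have hne : {p : ℕ | ∀ G : SimpleGraph (Fin 8), G.Connected → ∀ k : ℕ, 1 ≤ k → p ≤ k → k ≤ 8 →
        signedNum G k ≤ 2 * k - (8 : ℕ)}.Nonempty := ⟨9, fun G _ k _ h1 h2 => by omega⟩
    have hmem := Nat.sInf_mem hne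
    by_contra hlt
    have h1 : pConnected 8 ≤ 5 := by omega
    have h2 := hmem H conn 5 (by norm_num) h1 (by norm_num)
    rw [signed_eq] at h2
    norm_num at h2
  refine ⟨⟨H, conn, ?_, ?_, ?_⟩, hp, ?_⟩
  · intro v
    apply reg' v
    intro u
    simp only [mem_filter, mem_univ, true_and]
  · rw [signed_eq]; norm_num
  · rw [signed_eq]; norm_num
  · intro h
    have := h 8 (by norm_num)
    omega

end Pool.Agent.Results.MP_1fc697_co.CubicOrderEight
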